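import Pool.Agent.Helper44.ZB.Ext
import Pool.Agent.Helper83.ZB.CoreP

/-! Project ZB, piece CoreP (helper83): the p-adic contradiction. -/

set_option autoImplicit false

namespace Pool.ZB

open Finset Pool.RA

variable {ι : Type} [Fintype ι]

/-- `nm (c x - μ k) ≤ |(c, μ)|`: `c x - μ k = c (x - α k) + (c α - μ) k`. -/
theorem nm_pt {r : ι → ℕ} {k x : ι → ℤ} {α w L b : ℝ} (H : Rel r k x α w L b) (v : ℤ × ℤ) :
    nm r (pt x k v) ≤ gn w L α v := nm_vec r x k α w L H.nmk H.nmx v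

/-- `|lam (c x - μ k)| ≤ (b - 1) |(c, μ)|`. -/
theorem lam_pt {r : ι → ℕ} {k x : ι → ℤ} {α w L b : ℝ} (H : Rel r k x α w L b) (v : ℤ × ℤ) :
    |lam r (pt x k v)| ≤ (b - 1) * gn w L α v := by
  refine (lam_vec r x k α ((b - 1) * w) ((b - 1) * L) (by linarith [H.lamk]) H.lamx v).trans
    (le_of_eq ?_)
  unfold gn
  ring

/-- Sizes of numerator and denominator: `log Nu = (nm + lam) / 2`, `log De = (nm - lam) / 2`. -/
theorem size_pt {r : ι → ℕ} {k x : ι → ℤ} {α w L b : ℝ} (H : Rel r k x α w L b) (v : ℤ × ℤ) :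
    (Nu r (pt x k v) : ℝ) ≤ Real.exp (b / 2 * gn w L α v) ∧
    (De r (pt x k v) : ℝ) ≤ Real.exp (b / 2 * gn w L α v) :=
  size_vec r (fun i => (H.prime i).one_le) x k α w L b H.nmk H.nmx H.lamk H.lamx v

/-- The shift: `R_(v + (1,0)) = R_x R_v`. -/
theorem ratio_sh {r : ι → ℕ} {k x : ι → ℤ} {α w L b : ℝ} (H : Rel r k x α w L b) (v : ℤ × ℤ) :
    (Nu r (pt x k (sh v)) : ℚ) / (De r (pt x k (sh v)) : ℚ) =
      ((Nu r x : ℚ) / (De r x : ℚ)) * ((Nu r (pt x k v) : ℚ) / (De r (pt x k v) : ℚ)) := by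
  have h1 : pt x k (sh v) = pt x k v + x := vec_sh x k v
  rw [h1, ratio_add r (fun i => (H.prime i).one_le), mul_comm]

/-- `R_x ≠ 1`. -/
theorem ratio_ne {r : ι → ℕ} {k x : ι → ℤ} {α w L b : ℝ} (H : Rel r k x α w L b) :
    (Nu r x : ℚ) / (De r x : ℚ) ≠ 1 := rho_ne_one r H.prime H.inj x H.x0

/-- The p-adic contradiction: `E_padic`, `E_rank`, `geometry` with `r = (1 - η) I / b`,
`e = c + C0`, `v_i = ± Nu`, `u_i = De`, `g` an integer representing `chi (∏ p ^ m p) x`,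
`G = g ^ C0`. -/
theorem core_p (δ : ℝ) (hδ : 0 < δ) (hδ1 : δ ≤ 1 / 2) : ∃ W : ℝ, 1 ≤ W ∧
    ∀ (ι : Type) [Fintype ι] (r : ι → ℕ) (k x : ι → ℤ) (α w L b Tm : ℝ), Rel r k x α w L b →
    ∀ (S : Finset ℕ), (∀ p ∈ S, p.Prime) → ∀ (m n : ℕ → ℕ), (∀ p ∈ S, 1 ≤ n p) →
    (∀ p ∈ S, n p ≤ m p) → (∀ p ∈ S, (m p : ℝ) ≤ Tm * n p) →
    ∀ (h : ∀ i, (r i).Coprime (∏ p ∈ S, p ^ m p)) (h' : ∀ i, (r i).Coprime (∏ p ∈ S, p ^ n p)),
    (chi r (∏ p ∈ S, p ^ m p) h k = 1 ∨ chi r (∏ p ∈ S, p ^ m p) h k = -1) →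
    chi r (∏ p ∈ S, p ^ n p) h' x = 1 →
    W ≤ w → W * w ≤ L → W * w / L ≤ α → α ≤ 1 / W →
    δ * L ≤ ∑ p ∈ S, (m p : ℝ) * Real.log p → ∑ p ∈ S, (m p : ℝ) * Real.log p ≤ L →
    b ^ 2 * L * Tm * w ≤ (2 / 3 - δ) * (∑ p ∈ S, (m p : ℝ) * Real.log p) ^ 2 → False := by
  obtain ⟨D0, w0, hD0, hw0, hcore⟩ := core_padic (δ / 2) (by positivity)
  refine ⟨max D0 w0, le_max_of_le_left hD0, ?_⟩
  intro ι _ r k x α w L b Tm H S hS m n hn hnm hTm h h' hk hx hw hwL hα1 hα2 hδI hIL hmain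
  obtain ⟨s, hs⟩ : ∃ s : ℤˣ, chi r (∏ p ∈ S, p ^ m p) h k = sgn _ s := by
    rcases hk with hk | hk
    · exact ⟨1, by rw [hk]; unfold sgn; rw [map_one]⟩
    · refine ⟨-1, ?_⟩
      rw [hk]
      apply Units.ext
      rw [sgn_coe]
      push_cast
      rfl
  have hW1 : 1 ≤ max D0 w0 := le_max_of_le_left hD0
  have hw1 : 0 < w := by linarith
  have hL0 : 0 < L := lt_of_lt_of_le (by positivity) hwL
  have hI0 : 0 < ∑ p ∈ S, (m p : ℝ) * Real.log p := lt_of_lt_of_le (by positivity) hδI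
  obtain ⟨I, hI⟩ : ∃ I : ℝ, I = ∑ p ∈ S, (m p : ℝ) * Real.log p := ⟨_, rfl⟩
  rw [← hI] at hδI hIL hmain hI0
  have hb1 := H.hb1
  have hb0 : 0 ≤ b - 1 := by linarith
  have hLL : L ≤ (1 + δ / 2) * L := by nlinarith
  have hL' : L < (1 + δ / 2) * L := by nlinarith
  refine hcore ι r H.prime H.inj S hS m n hn hnm Tm hTm h h' s x k hx H.x0 hs
    ((1 + δ / 2) * L) w b α I hI hb1 H.hb2 (by linarith [H.nmk]) (H.lamk.trans ?_) H.nmx H.lamx
    (le_trans ?_ hα1) (hα2.trans (one_div_le_one_div_of_le (by linarith) (le_max_left _ _)))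
    ((le_max_right _ _).trans hw) ?_ ?_ ?_ ?_
  · exact mul_le_mul_of_nonneg_left (by linarith) hb0
  · have h1 : D0 * w / ((1 + δ / 2) * L) ≤ D0 * w / L :=
      div_le_div_of_nonneg_left (by positivity) hL0 hLL
    refine h1.trans (div_le_div_of_nonneg_right ?_ hL0.le)
    exact mul_le_mul_of_nonneg_right (le_max_left _ _) hw1.le
  · refine le_trans ?_ (hwL.trans hLL)
    exact mul_le_mul_of_nonneg_right (le_max_left _ _) hw1.le
  · nlinarith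
  · nlinarith
  · have h1 : b ^ 2 * ((1 + δ / 2) * L) * Tm * w = (1 + δ / 2) * (b ^ 2 * L * Tm * w) := by ring
    rw [h1]
    have h2 := mul_le_mul_of_nonneg_left hmain (show 0 ≤ 1 + δ / 2 by positivity)
    refine h2.trans ?_
    have h3 : 0 < I ^ 2 := by positivity
    nlinarith [mul_pos hδ h3, mul_pos hδ hδ]

end Pool.ZB
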