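import Pool.Agent.Helper44.ZB.KW
import Pool.Agent.Helper44.ZB.CoreP

/-! Project ZB, piece Case1 (helper4): a set of primes of `F` with small product and a share. -/

set_option autoImplicit false

namespace Pool.ZB

open Finset Pool.RA

private theorem Ca1_log (η l0 : ℝ) (hη : 0 < η) (h0 : 0 ≤ l0) : ∃ C : ℝ, 1 ≤ C ∧
    ∀ N : ℝ, 1 ≤ N → (Real.log N + l0) ^ 2 ≤ C * N ^ η := by
  refine ⟨(2 / η + l0) ^ 2 + 1, by nlinarith [sq_nonneg (2 / η + l0)], fun N hN => ?_⟩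
  have h1 : Real.log N ≤ N ^ (η / 2) / (η / 2) := Real.log_le_rpow_div (by linarith) (by linarith)
  have h2 : 1 ≤ N ^ (η / 2) := Real.one_le_rpow hN (by linarith)
  have h3 : Real.log N + l0 ≤ (2 / η + l0) * N ^ (η / 2) := by
    have h4 : N ^ (η / 2) / (η / 2) = 2 / η * N ^ (η / 2) := by
      field_simp
    rw [h4] at h1
    nlinarith
  have h5 : 0 ≤ Real.log N + l0 := add_nonneg (Real.log_nonneg hN) h0
  have h6 : (N ^ (η / 2)) ^ 2 = N ^ η := by
    rw [← Real.rpow_natCast, ← Real.rpow_mul (by linarith)]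
    congr 1
    push_cast
    ring
  calc (Real.log N + l0) ^ 2 ≤ ((2 / η + l0) * N ^ (η / 2)) ^ 2 := pow_le_pow_left₀ h5 h3 2
    _ = (2 / η + l0) ^ 2 * N ^ η := by rw [mul_pow, h6]
    _ ≤ ((2 / η + l0) ^ 2 + 1) * N ^ η := by
      have : 0 ≤ N ^ η := Real.rpow_nonneg (by linarith) _
      nlinarith

private theorem Ca1_lamR {ι : Type} [Fintype ι] (r : ι → ℕ) (hr : ∀ i, 1 ≤ r i) (y : ι → ℝ) :
    |lamR r y| ≤ nmR r y := by
  unfold lamR nmR
  refine (Finset.abs_sum_le_sum_abs _ _).trans (Finset.sum_le_sum fun i _ => ?_)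
  rw [abs_mul, abs_of_nonneg (Real.log_nonneg (by exact_mod_cast hr i))]

/-- The size of the modulus. -/
private theorem Ca1_mod (S : Finset ℕ) (hS : ∀ p ∈ S, p.Prime) (m : ℕ → ℕ) (Tm : ℝ) (hT : 0 < Tm) :
    ((∏ p ∈ S, p ^ ⌈(m p : ℝ) / Tm⌉₊ : ℕ) : ℝ) ≤
      Real.exp ((∑ p ∈ S, (m p : ℝ) * Real.log p) / Tm) * ((∏ p ∈ S, p : ℕ) : ℝ) := by
  have hp : ∀ p ∈ S, (0 : ℝ) < p := fun p hp => by exact_mod_cast (hS p hp).pos
  have hpos : (0 : ℝ) < ((∏ p ∈ S, p ^ ⌈(m p : ℝ) / Tm⌉₊ : ℕ) : ℝ) := by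
    push_cast
    exact Finset.prod_pos fun p h => pow_pos (hp p h) _
  have hpos' : (0 : ℝ) < ((∏ p ∈ S, p : ℕ) : ℝ) := by
    push_cast
    exact Finset.prod_pos hp
  rw [← Real.log_le_log_iff hpos (mul_pos (Real.exp_pos _) hpos'), Real.log_mul (Real.exp_pos _).ne'
    hpos'.ne', Real.log_exp]
  push_cast
  rw [Real.log_prod (fun p h => (pow_pos (hp p h) _).ne'), Real.log_prod (fun p h => (hp p h).ne'),
    Finset.sum_div, ← Finset.sum_add_distrib]
  refine Finset.sum_le_sum fun p h => ?_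
  rw [Real.log_pow]
  have h1 : (⌈(m p : ℝ) / Tm⌉₊ : ℝ) ≤ (m p : ℝ) / Tm + 1 := (Nat.ceil_lt_add_one (by positivity)).le
  have h2 : 0 ≤ Real.log p := Real.log_nonneg (by exact_mod_cast (hS p h).one_le)
  calc (⌈(m p : ℝ) / Tm⌉₊ : ℝ) * Real.log p ≤ ((m p : ℝ) / Tm + 1) * Real.log p :=
        mul_le_mul_of_nonneg_right h1 h2
    _ = _ := by ring

/-- Composite modulus.  Proof: `l = log N + l0`, `m = F.factorization`, `I = ∑_{p ∈ S} m_p log p ≥ s0 L`,
`Tm = I / (μ l)` with `μ = ε / 8`, `n_p = ⌈m_p / Tm⌉₊` (`1 ≤ n_p ≤ m_p` as `Tm ≥ 1`), so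
`P = ∏ p ^ n_p ≤ (∏ p) exp (μ l)`; `b = 2`, `w = l / K` with `4 L Tm w ≤ (1/2) I ^ 2` for
`K ≥ 8 / (μ s0)`.  `k = kw N S (E1, E2)`.  If `L > C N^ε ∏ p` then `F_padic` (`ZZ = {1}`, `Y = 1`)
gives `x, α` and `core_p` (`δ = min (1/6) s0`) the contradiction. -/
theorem case_comp (ε s0 : ℝ) (hε : 0 < ε) (hs : 0 < s0) (hs1 : s0 ≤ 1) : ∃ C : ℝ, 1 ≤ C ∧
    ∀ (E1 E2 F N : ℕ) (L : ℝ), Tri E1 E2 F N L → ∀ S : Finset ℕ, S ⊆ F.primeFactors →
      s0 * L ≤ ∑ p ∈ S, (F.factorization p : ℝ) * Real.log p →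
      L ≤ C * (N : ℝ) ^ ε * ((∏ p ∈ S, p : ℕ) : ℝ) := by
  classical
  set δ : ℝ := min (1 / 6) s0 with hδ
  have hδ0 : 0 < δ := lt_min (by norm_num) hs
  have hδ6 : δ ≤ 1 / 6 := min_le_left _ _
  have hδs : δ ≤ s0 := min_le_right _ _
  obtain ⟨W, hW1, hcore⟩ := core_p δ hδ0 (by linarith)
  set μ : ℝ := ε / 8 with hμ
  have hμ0 : 0 < μ := by positivity
  set K : ℕ := ⌈8 / (μ * s0)⌉₊ + 1 with hK
  have hK1 : 1 ≤ K := by omega
  have hKR : (1 : ℝ) ≤ K := by exact_mod_cast hK1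
  have hK0 : (0 : ℝ) < K := by linarith
  have hKs : 8 ≤ K * (μ * s0) := by
    have h1 : 8 / (μ * s0) ≤ K := by
      rw [hK]
      push_cast
      linarith [Nat.le_ceil (8 / (μ * s0))]
    rwa [div_le_iff₀ (by positivity)] at h1
  set W' : ℝ := W + ε / s0 with hW'
  have hes : 0 < ε / s0 := by positivity
  set l0 : ℝ := K * W' with hl0
  have hl00 : 0 ≤ l0 := by
    have : 0 ≤ W' := by linarith
    positivity
  obtain ⟨C1, hC1, hpow⟩ := pow_kw K hK1 (ε / 4) (by linarith)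
  obtain ⟨C2, hC2, hlog⟩ := Ca1_log (ε / 4) l0 (by linarith) hl00
  have hexp : 0 < Real.exp (μ * l0) := Real.exp_pos _
  set C : ℝ := C1 * Real.exp (μ * l0) * (8 * W ^ 2) * C2 + 1 with hC
  refine ⟨C, by
    have : 0 ≤ C1 * Real.exp (μ * l0) * (8 * W ^ 2) * C2 := by positivity
    linarith, ?_⟩
  intro E1 E2 F N L H S hSF hsh
  by_contra hcon
  push Not at hcon
  -- basic facts
  have hSp : ∀ p ∈ S, p.Prime := fun p hp => Nat.prime_of_mem_primeFactors (hSF hp)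
  have hRS1 : (1 : ℝ) ≤ ((∏ p ∈ S, p : ℕ) : ℝ) := by
    have : 0 < ∏ p ∈ S, p := Finset.prod_pos fun p hp => (hSp p hp).pos
    exact_mod_cast this
  have hN1 : 1 ≤ N := by
    refine le_trans ?_ H.rad
    exact Finset.prod_pos fun q hq => (Nat.prime_of_mem_primeFactors hq).pos
  have hNR : (1 : ℝ) ≤ N := by exact_mod_cast hN1
  have hNe : (1 : ℝ) ≤ (N : ℝ) ^ ε := Real.one_le_rpow hNR hε.le
  have hadm := H.adm S hSF
  set RS : ℝ := ((∏ p ∈ S, p : ℕ) : ℝ) with hRS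
  set l : ℝ := Real.log N + l0 with hl
  set w : ℝ := l / K with hw
  have hlogN : 0 ≤ Real.log N := Real.log_nonneg hNR
  have hwW' : W' ≤ w := by
    rw [hw, le_div_iff₀ hK0, hl, hl0]
    nlinarith
  have hwW : W ≤ w := by linarith
  have hw1 : 1 ≤ w := by linarith
  have hwl : w ≤ l := by
    rw [hw]
    exact div_le_self (by rw [hl]; linarith) hKR
  have hl1 : 1 ≤ l := by linarith
  set I : ℝ := ∑ p ∈ S, (F.factorization p : ℝ) * Real.log p with hI
  have hCpos : 0 < C := by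
    have : 0 ≤ C1 * Real.exp (μ * l0) * (8 * W ^ 2) * C2 := by positivity
    linarith
  have hLpos : 0 < L := by
    have h1 : 0 < C * (N : ℝ) ^ ε * RS := by positivity
    linarith
  have hIL : I ≤ L := H.share_le S hSF
  have hI0 : 0 < I := lt_of_lt_of_le (mul_pos hs hLpos) hsh
  set Tm : ℝ := I / (μ * l) with hTm
  have hml : 0 < μ * l := by positivity
  have hT0 : 0 < Tm := div_pos hI0 hml
  -- the modulus
  set m : ℕ → ℕ := fun p => F.factorization p with hm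
  set n : ℕ → ℕ := fun p => ⌈(m p : ℝ) / Tm⌉₊ with hn
  set P : ℕ := ∏ p ∈ S, p ^ n p with hP
  have hP0 : 0 < P := Finset.prod_pos fun p hp => pow_pos (hSp p hp).pos _
  have hPR : (P : ℝ) ≤ Real.exp (μ * l) * RS := by
    have h1 := Ca1_mod S hSp m Tm hT0
    have h2 : (∑ p ∈ S, (m p : ℝ) * Real.log p) / Tm = μ * l := by
      rw [hTm]
      show I / (I / (μ * l)) = μ * l
      field_simp
    rw [h2] at h1
    exact h1
  -- the main inequality
  have hmain : (K : ℝ) ^ #{i | kw N S (E1, E2) i ≠ 0} * P * (8 * W ^ 2 * w * l) <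
      L * #({1} : Finset ℕ) := by
    have h1 := hpow N S (E1, E2) hadm
    have h2 : Real.exp (μ * l) = Real.exp (μ * l0) * (N : ℝ) ^ μ := by
      rw [hl, mul_add, Real.exp_add, Real.rpow_def_of_pos (by linarith), mul_comm (Real.log N) μ]
      ring
    have h3 : w * l ≤ C2 * (N : ℝ) ^ (ε / 4) := by
      have h4 := hlog N hNR
      have h5 : w * l ≤ l ^ 2 := by nlinarith
      exact h5.trans h4
    have h6 : (N : ℝ) ^ (ε / 4) * (N : ℝ) ^ μ * (N : ℝ) ^ (ε / 4) ≤ (N : ℝ) ^ ε := by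
      rw [← Real.rpow_add (by linarith), ← Real.rpow_add (by linarith)]
      refine Real.rpow_le_rpow_of_exponent_le hNR ?_
      rw [hμ]
      linarith
    have h7 : (0 : ℝ) ≤ (K : ℝ) ^ #{i | kw N S (E1, E2) i ≠ 0} := by positivity
    have h8 : (0 : ℝ) ≤ P := by positivity
    have h9 : (0 : ℝ) ≤ w * l := by positivity
    have hRS0 : 0 ≤ RS := by linarith
    calc (K : ℝ) ^ #{i | kw N S (E1, E2) i ≠ 0} * P * (8 * W ^ 2 * w * l)
        = (K : ℝ) ^ #{i | kw N S (E1, E2) i ≠ 0} * P * (8 * W ^ 2) * (w * l) := by ring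
      _ ≤ (C1 * (N : ℝ) ^ (ε / 4)) * (Real.exp (μ * l0) * (N : ℝ) ^ μ * RS) * (8 * W ^ 2) *
            (C2 * (N : ℝ) ^ (ε / 4)) := by
          rw [h2] at hPR
          gcongr
      _ = C1 * Real.exp (μ * l0) * (8 * W ^ 2) * C2 *
            ((N : ℝ) ^ (ε / 4) * (N : ℝ) ^ μ * (N : ℝ) ^ (ε / 4)) * RS := by ring
      _ ≤ C1 * Real.exp (μ * l0) * (8 * W ^ 2) * C2 * (N : ℝ) ^ ε * RS := by gcongr
      _ < C * (N : ℝ) ^ ε * RS := by
          rw [hC]
          have : 0 < (N : ℝ) ^ ε * RS := by positivity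
          linarith
      _ < L := hcon
      _ = L * #({1} : Finset ℕ) := by simp
  have hmain' : 8 * W ^ 2 * w * l < L := by
    have h1 : (1 : ℝ) ≤ (K : ℝ) ^ #{i | kw N S (E1, E2) i ≠ 0} := one_le_pow₀ hKR
    have h2 : (1 : ℝ) ≤ P := by exact_mod_cast hP0
    have h3 : (1 : ℝ) ≤ (K : ℝ) ^ #{i | kw N S (E1, E2) i ≠ 0} * P := by
      nlinarith
    have h4 : 0 ≤ 8 * W ^ 2 * w * l := by positivity
    have h5 : L * #({1} : Finset ℕ) = L := by simp
    rw [h5] at hmain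
    nlinarith
  have hW0 : 0 < W := by linarith
  have hWw : W * w ≤ L := by
    have h1 : W * w ≤ 8 * W ^ 2 * w * l := by
      have h2 : 0 < W * w := by positivity
      have h3 : 1 ≤ 8 * W * l := by nlinarith
      calc W * w = W * w * 1 := by ring
        _ ≤ W * w * (8 * W * l) := by gcongr
        _ = _ := by ring
    linarith
  have hT1 : 1 ≤ Tm := by
    rw [hTm, le_div_iff₀ hml, one_mul]
    have h1 : ε ≤ s0 * w := by
      have h2 : ε / s0 ≤ w := by linarith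
      rwa [div_le_iff₀' hs] at h2
    have h3 : s0 * (8 * W ^ 2 * w * l) ≤ s0 * L := by gcongr
    have h4 : μ * l ≤ s0 * (8 * W ^ 2 * w * l) := by
      have h5 : (1 : ℝ) ≤ 8 * W ^ 2 := by nlinarith
      calc μ * l ≤ ε * l := by rw [hμ]; nlinarith
        _ ≤ s0 * w * l := by gcongr
        _ = s0 * w * l * 1 := by ring
        _ ≤ s0 * w * l * (8 * W ^ 2) := by gcongr
        _ = _ := by ring
    linarith
  -- the pigeonhole
  have hcop : ∀ (m' : ℕ → ℕ) (i : {p // p ∈ Pr N S}), (rr N S i).Coprime (∏ p ∈ S, p ^ m' p) :=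
    fun m' i => rr_coprime N S hSp m' i
  have hnm := nm_kw N S (E1, E2) hadm
  obtain ⟨x, α, hx0, hchi, hnmx, -, hα1, hα2⟩ := Ext.F_padic (rr N S) (rr_prime N S) (rr_inj N S) P hP0
    (hcop n) (kw N S (E1, E2)) L l w W 1 K hK1 {1} hLpos hW1 hw1
    (by rw [hnm]; exact H.low) (by rw [hnm]; exact H.size)
    ((sum_kw N hN1 S (E1, E2) hadm).trans (by rw [hl]; linarith))
    (fun s hs => by
      rw [Finset.mem_singleton] at hs
      subst hs
      norm_num)
    (fun s hs q hq hqs => by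
      rw [Finset.mem_singleton] at hs
      subst hs
      exact absurd (Nat.dvd_one.1 hqs) hq.one_lt.ne')
    (fun s hs s' hs' _ => by
      rw [Finset.mem_singleton] at hs hs'
      rw [hs, hs'])
    (by rw [Real.log_one, mul_zero, add_zero]) hmain
  have hE1 : 0 ≤ Real.log E1 := Real.log_nonneg (by exact_mod_cast H.pos1)
  have hE2 : 0 ≤ Real.log E2 := Real.log_nonneg (by exact_mod_cast H.pos2)
  have hlam : |lam (rr N S) (kw N S (E1, E2))| ≤ (2 - 1) * (2 * L) := by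
    rw [lam_kw N S (E1, E2) hadm, abs_le]
    have := H.size
    constructor <;> simp only <;> linarith
  have hrel : Rel (rr N S) (kw N S (E1, E2)) x α w L 2 :=
    { prime := rr_prime N S
      inj := rr_inj N S
      hb1 := by norm_num
      hb2 := le_rfl
      nmk := by rw [hnm]; exact H.size
      lamk := hlam
      nmx := hnmx
      lamx := by
        have := Ca1_lamR (rr N S) (fun i => (rr_prime N S i).one_le)
          (fun i => (x i : ℝ) - α * (kw N S (E1, E2) i : ℝ))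
        linarith
      x0 := hx0 }
  refine hcore _ (rr N S) (kw N S (E1, E2)) x α w L 2 Tm hrel S hSp m n ?_ ?_ ?_ (hcop m) (hcop n)
    (chi_kw N S (E1, E2) hadm _ (hcop m) (H.dvd S hSF)) hchi hwW hWw hα1 hα2 ?_ hIL ?_
  · intro p hp
    have h1 : 0 < F.factorization p := by
      have := hSF hp
      rw [← Nat.support_factorization, Finsupp.mem_support_iff] at this
      omega
    have h2 : (0 : ℝ) < (m p : ℝ) / Tm := div_pos (by exact_mod_cast h1) hT0
    exact Nat.ceil_pos.2 h2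
  · intro p _
    exact Nat.ceil_le.2 (div_le_self (by positivity) hT1)
  · intro p _
    have h1 := Nat.le_ceil ((m p : ℝ) / Tm)
    rw [div_le_iff₀ hT0] at h1
    rw [mul_comm]
    exact h1
  · calc δ * L ≤ s0 * L := by gcongr
      _ ≤ I := hsh
  · show 2 ^ 2 * L * Tm * w ≤ (2 / 3 - δ) * I ^ 2
    have h1 : Tm * w = I / (μ * K) := by
      rw [hTm, hw]
      field_simp
    have h2 : 8 * L ≤ I * (μ * K) := by
      have h3 : s0 * L * (μ * K) ≤ I * (μ * K) := by gcongr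
      nlinarith
    have h4 : 2 ^ 2 * L * Tm * w = 4 * L * (Tm * w) := by ring
    rw [h4, h1]
    have h5 : 4 * L * (I / (μ * K)) ≤ 1 / 2 * I ^ 2 := by
      rw [mul_div_assoc', div_le_iff₀ (by positivity)]
      nlinarith
    nlinarith [sq_nonneg I]

end Pool.ZB
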