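import Pool.Agent.Helper44.ZB.KW
import Pool.Agent.Helper44.ZB.CoreP
import Pool.Agent.Helper44.ZB.Case1

/-! Project ZB, piece Case2 (helper57): a single dominating prime. -/

set_option autoImplicit false

namespace Pool.ZB

open Finset Pool.RA

/-- The integers in `(Y / 2, Y]`. -/
private noncomputable def c2Z (Y : ℝ) : Finset ℕ := Finset.Icc (⌊Y / 2⌋₊ + 1) ⌊Y⌋₊

private theorem c2Z_mem (Y : ℝ) (s : ℕ) (hs : s ∈ c2Z Y) (hY : 0 ≤ Y) :
    Y / 2 < s ∧ (s : ℝ) ≤ Y ∧ 1 ≤ s := by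
  unfold c2Z at hs
  rw [Finset.mem_Icc] at hs
  refine ⟨?_, ?_, by omega⟩
  · have h1 := Nat.lt_floor_add_one (Y / 2)
    have h2 : ((⌊Y / 2⌋₊ + 1 : ℕ) : ℝ) ≤ s := by exact_mod_cast hs.1
    push_cast at h2
    linarith
  · have h1 : (⌊Y⌋₊ : ℝ) ≤ Y := Nat.floor_le hY
    have h2 : (s : ℝ) ≤ (⌊Y⌋₊ : ℝ) := by exact_mod_cast hs.2
    linarith

private theorem c2Z_card (Y : ℝ) (hY : 4 ≤ Y) : Y / 4 ≤ (#(c2Z Y) : ℝ) := by
  unfold c2Z
  rw [Nat.card_Icc]
  have h1 : (⌊Y / 2⌋₊ : ℝ) ≤ Y / 2 := Nat.floor_le (by linarith)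
  have h2 := Nat.lt_floor_add_one Y
  have h3 : (⌊Y⌋₊ : ℝ) - ⌊Y / 2⌋₊ ≤ ((⌊Y⌋₊ + 1 - (⌊Y / 2⌋₊ + 1) : ℕ) : ℝ) := by
    have h4 : (⌊Y⌋₊ : ℤ) - ⌊Y / 2⌋₊ ≤ ((⌊Y⌋₊ + 1 - (⌊Y / 2⌋₊ + 1) : ℕ) : ℤ) := by omega
    exact_mod_cast h4
  linarith

/-- The count of the pigeonhole. -/
private theorem c2_count (ε e W C1 N p L l w c : ℝ) (hε : 0 < ε) (he : 0 < e) (he4 : e ≤ ε / 4)
    (he1 : e ≤ 1 / 10) (hW : 1 ≤ W) (hC1 : 1 ≤ C1) (hp : 1 < p) (hpN : p ≤ N)
    (hl : l = Real.log p / ε) (hw : w = (2 / 3 - e) * Real.log p) (hc : c ≤ C1 * N ^ (ε / 4))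
    (hL : 8 * (32 * C1 * W ^ 2 / (ε * e ^ 2)) * N ^ ε * p ^ (2 / 3 : ℝ) < L) (z : ℝ)
    (hz : p ^ (1 / 3 - e) / 4 ≤ z) :
    c * p * (8 * W ^ 2 * w * l) < L * z := by
  have hp0 : (0 : ℝ) < p := by linarith
  have hN0 : (0 : ℝ) < N := by linarith
  have hN1 : (1 : ℝ) ≤ N := by linarith
  have hlp : 0 < Real.log p := Real.log_pos hp
  have hwl : w * l ≤ 4 / (ε * e ^ 2) * p ^ e := by
    have h1 := Real.log_le_rpow_div hp0.le (half_pos he)
    have h2 : Real.log p ^ 2 ≤ (p ^ (e / 2) / (e / 2)) ^ 2 := by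
      apply pow_le_pow_left₀ hlp.le h1
    have h3 : (p ^ (e / 2) / (e / 2)) ^ 2 = 4 / e ^ 2 * p ^ e := by
      have h4 : p ^ e = p ^ (e / 2) * p ^ (e / 2) := by
        rw [← Real.rpow_add hp0]
        congr 1
        ring
      rw [h4]
      field_simp
      ring
    have h5 : w * l ≤ Real.log p ^ 2 / ε := by
      rw [hw, hl]
      have h6 : (2 / 3 - e) * Real.log p * (Real.log p / ε) = (2 / 3 - e) * (Real.log p ^ 2 / ε) := by
        ring
      rw [h6]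
      have h7 : 0 ≤ Real.log p ^ 2 / ε := by positivity
      nlinarith
    calc w * l ≤ Real.log p ^ 2 / ε := h5
      _ ≤ (4 / e ^ 2 * p ^ e) / ε := by
          apply div_le_div_of_nonneg_right _ hε.le
          rw [← h3]
          exact h2
      _ = 4 / (ε * e ^ 2) * p ^ e := by field_simp
  have hA : 0 < 32 * C1 * W ^ 2 / (ε * e ^ 2) := by positivity
  set A := 32 * C1 * W ^ 2 / (ε * e ^ 2) with hAd
  have hNe : (0 : ℝ) < N ^ ε := Real.rpow_pos_of_pos hN0 _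
  have hpe : (0 : ℝ) < p ^ (1 - e) := Real.rpow_pos_of_pos hp0 _
  -- the left side
  have hl1 : c * p * (8 * W ^ 2 * w * l) ≤ A * N ^ (ε / 4) * p ^ (1 + e) := by
    have h1 : c * p * (8 * W ^ 2 * w * l) = (c * (8 * W ^ 2 * p)) * (w * l) := by ring
    have h2 : A * N ^ (ε / 4) * p ^ (1 + e) =
        (C1 * N ^ (ε / 4) * (8 * W ^ 2 * p)) * (4 / (ε * e ^ 2) * p ^ e) := by
      rw [hAd, Real.rpow_add hp0, Real.rpow_one]
      field_simp
      ring
    rw [h1, h2]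
    have h3 : 0 ≤ w * l := by
      rw [hw, hl]
      have : 0 ≤ 2 / 3 - e := by linarith
      positivity
    apply mul_le_mul _ hwl h3 (by positivity)
    apply mul_le_mul_of_nonneg_right hc (by positivity)
  have hl2 : A * N ^ (ε / 4) * p ^ (1 + e) ≤ A * N ^ ε * p ^ (1 - e) := by
    have h1 : p ^ (1 + e) = p ^ (2 * e) * p ^ (1 - e) := by
      rw [← Real.rpow_add hp0]
      congr 1
      ring
    have h2 : p ^ (2 * e) ≤ N ^ (2 * e) := Real.rpow_le_rpow hp0.le hpN (by linarith)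
    have h3 : N ^ (2 * e) ≤ N ^ (ε / 2) := Real.rpow_le_rpow_of_exponent_le hN1 (by linarith)
    have h4 : N ^ (ε / 4) * N ^ (ε / 2) ≤ N ^ ε := by
      rw [← Real.rpow_add hN0]
      exact Real.rpow_le_rpow_of_exponent_le hN1 (by linarith)
    have h5 : N ^ (ε / 4) * p ^ (2 * e) ≤ N ^ ε := by
      refine le_trans ?_ h4
      exact mul_le_mul_of_nonneg_left (h2.trans h3) (Real.rpow_nonneg hN0.le _)
    calc A * N ^ (ε / 4) * p ^ (1 + e) = A * (N ^ (ε / 4) * p ^ (2 * e)) * p ^ (1 - e) := by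
          rw [h1]; ring
      _ ≤ A * N ^ ε * p ^ (1 - e) := by
          apply mul_le_mul_of_nonneg_right _ hpe.le
          exact mul_le_mul_of_nonneg_left h5 hA.le
  -- the right side
  have hr1 : 2 * (A * N ^ ε * p ^ (1 - e)) ≤ L * z := by
    have h1 : p ^ (1 - e) = p ^ (2 / 3 : ℝ) * p ^ (1 / 3 - e) := by
      rw [← Real.rpow_add hp0]
      congr 1
      ring
    have h2 : 0 < p ^ (1 / 3 - e) := Real.rpow_pos_of_pos hp0 _
    have h3 : 0 < 8 * A * N ^ ε * p ^ (2 / 3 : ℝ) := by positivity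
    calc 2 * (A * N ^ ε * p ^ (1 - e)) =
          (8 * A * N ^ ε * p ^ (2 / 3 : ℝ)) * (p ^ (1 / 3 - e) / 4) := by rw [h1]; ring
      _ ≤ L * z := mul_le_mul hL.le hz (by positivity) (h3.trans hL).le
  have hpos : 0 < A * N ^ ε * p ^ (1 - e) := by positivity
  linarith

/-- Single prime.  Proof: `l = log p / ε`, `S = {p}`, `m = F.factorization`, `n = 1`, `Tm = m p`,
`P = p`, `Y = p ^ (1/3 - e)`, `ZZ` the integers in `(Y/2, Y]`, `w = (2/3 - e) log p`,
`b = 1 + e / 4`; bounded `p` are treated by `case_comp`. -/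
theorem case_single (ε : ℝ) (hε : 0 < ε) : ∃ τ C : ℝ, 0 < τ ∧ τ < 1 ∧ 1 ≤ C ∧
    ∀ (E1 E2 F N : ℕ) (L : ℝ), Tri E1 E2 F N L → ∀ p ∈ F.primeFactors,
      (1 - τ) * L ≤ (F.factorization p : ℝ) * Real.log p →
      |Real.log E1 - Real.log E2| ≤ τ * L → (N : ℝ) ^ ε ≤ p →
      L ≤ C * (N : ℝ) ^ ε * (p : ℝ) ^ (2 / 3 : ℝ) := by
  classical
  obtain ⟨e, he, he4, he1⟩ : ∃ e : ℝ, 0 < e ∧ e ≤ ε / 4 ∧ e ≤ 1 / 10 :=
    ⟨min (ε / 4) (1 / 10), by positivity, min_le_left _ _, min_le_right _ _⟩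
  obtain ⟨W, hW, core⟩ := core_p (e / 4) (by positivity) (by linarith)
  obtain ⟨K, hK1, hKe⟩ : ∃ K : ℕ, 1 ≤ K ∧ 16 / (ε * e) ≤ K := by
    refine ⟨⌈16 / (ε * e)⌉₊, ?_, Nat.le_ceil _⟩
    exact Nat.one_le_iff_ne_zero.2 (Nat.ceil_pos.2 (by positivity)).ne'
  obtain ⟨C1, hC1, hpow⟩ := pow_kw K hK1 (ε / 4) (by positivity)
  obtain ⟨C2, hC2, comp⟩ := case_comp ε (1 - e / 4) hε (by linarith) (by linarith)
  set Λ : ℝ := 2 * W + 16 / e with hΛ
  have hA : 0 < 32 * C1 * W ^ 2 / (ε * e ^ 2) := by positivity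
  set A := 32 * C1 * W ^ 2 / (ε * e ^ 2) with hAd
  refine ⟨e / 4, 8 * A + 2 * W + C2 * Real.exp Λ, by positivity, by linarith, ?_, ?_⟩
  · have : 0 < C2 * Real.exp Λ := by positivity
    linarith
  intro E1 E2 F N L H p hp hshare hbal hNp
  by_contra hcon
  rw [not_le] at hcon
  have hpp : p.Prime := Nat.prime_of_mem_primeFactors hp
  have hS : ({p} : Finset ℕ) ⊆ F.primeFactors := by
    rw [Finset.singleton_subset_iff]
    exact hp
  have hpN : p ≤ N := by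
    have := H.prod_le {p} hS
    rwa [Finset.prod_singleton] at this
  have hp1 : (1 : ℝ) < p := by exact_mod_cast hpp.one_lt
  have hp0 : (0 : ℝ) < p := by linarith
  have hpNR : (p : ℝ) ≤ N := by exact_mod_cast hpN
  have hN0 : (0 : ℝ) < N := by linarith
  have hN1 : (1 : ℝ) ≤ N := by linarith
  have hlp : 0 < Real.log p := Real.log_pos hp1
  have hNe1 : (1 : ℝ) ≤ (N : ℝ) ^ ε := Real.one_le_rpow hN1 hε.le
  have hp23 : (1 : ℝ) ≤ (p : ℝ) ^ (2 / 3 : ℝ) := Real.one_le_rpow hp1.le (by norm_num)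
  have hB : 1 ≤ (N : ℝ) ^ ε * (p : ℝ) ^ (2 / 3 : ℝ) := by nlinarith
  have hCe : 0 < C2 * Real.exp Λ := by positivity
  have hL0 : 0 < L := by
    refine lt_of_le_of_lt ?_ hcon
    positivity
  -- bounded primes
  rcases lt_or_ge (p : ℝ) (Real.exp Λ) with hsmall | hbig
  · have h1 := comp E1 E2 F N L H {p} hS (by
      rw [Finset.sum_singleton]
      exact hshare)
    rw [Finset.prod_singleton] at h1
    have h2 : (p : ℝ) ≤ Real.exp Λ * (p : ℝ) ^ (2 / 3 : ℝ) := by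
      have h3 : Real.exp Λ * 1 ≤ Real.exp Λ * (p : ℝ) ^ (2 / 3 : ℝ) :=
        mul_le_mul_of_nonneg_left hp23 (Real.exp_pos _).le
      linarith
    have h4 : C2 * (N : ℝ) ^ ε * p ≤ C2 * (N : ℝ) ^ ε * (Real.exp Λ * (p : ℝ) ^ (2 / 3 : ℝ)) :=
      mul_le_mul_of_nonneg_left h2 (by positivity)
    have h5 : C2 * (N : ℝ) ^ ε * (Real.exp Λ * (p : ℝ) ^ (2 / 3 : ℝ)) ≤
        (8 * A + 2 * W + C2 * Real.exp Λ) * (N : ℝ) ^ ε * (p : ℝ) ^ (2 / 3 : ℝ) := by
      have h6 : 0 ≤ (8 * A + 2 * W) * ((N : ℝ) ^ ε * (p : ℝ) ^ (2 / 3 : ℝ)) := by positivity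
      nlinarith
    linarith
  -- large primes
  have hlogp : Λ ≤ Real.log p := (Real.le_log_iff_exp_le hp0).2 hbig
  have h16 : 16 / e ≤ Real.log p := by linarith
  have h16' : 16 ≤ e * Real.log p := by
    rw [div_le_iff₀ he] at h16
    linarith
  have h2W : 2 * W ≤ Real.log p := by
    have : 0 < 16 / e := by positivity
    linarith
  have hlog160 : 160 ≤ Real.log p := by nlinarith
  have hadm : Adm N {p} (E1, E2) := H.adm {p} hS
  set m : ℕ := F.factorization p with hm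
  have hm1 : 1 ≤ m := hpp.factorization_pos_of_dvd H.posF.ne' (Nat.dvd_of_mem_primeFactors hp)
  set l : ℝ := Real.log p / ε with hl
  set w : ℝ := (2 / 3 - e) * Real.log p with hw
  set Y : ℝ := (p : ℝ) ^ (1 / 3 - e) with hY
  have hl0 : 0 < l := by positivity
  have hlK : l / K ≤ e / 16 * Real.log p := by
    have hK0 : (0 : ℝ) < K := by exact_mod_cast hK1
    rw [div_le_iff₀ hK0, hl]
    have h1 : 16 ≤ K * (ε * e) := by
      rw [div_le_iff₀ (by positivity)] at hKe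
      exact hKe
    rw [div_le_iff₀ hε]
    have h2 : Real.log p * 16 ≤ Real.log p * (K * (ε * e)) := mul_le_mul_of_nonneg_left h1 hlp.le
    nlinarith
  have hlogY : Real.log Y = (1 / 3 - e) * Real.log p := by
    rw [hY, Real.log_rpow hp0]
  have hw12 : Real.log p / 2 ≤ w := by rw [hw]; nlinarith
  have hw1 : w ≤ Real.log p := by rw [hw]; nlinarith
  have hWw : W ≤ w := by linarith
  have hY4 : 4 ≤ Y := by
    have h1 : Real.exp 2 ≤ Y := by
      rw [← Real.le_log_iff_exp_le (Real.rpow_pos_of_pos hp0 _), hlogY]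
      nlinarith
    have h2 : (2 : ℝ) + 1 ≤ Real.exp 2 := Real.add_one_le_exp 2
    have h3 : (4 : ℝ) ≤ Real.exp 2 := by
      have h4 : Real.exp 2 = Real.exp 1 * Real.exp 1 := by
        rw [← Real.exp_add]; norm_num
      have h5 : (2 : ℝ) ≤ Real.exp 1 := by
        have := Real.add_one_le_exp (1 : ℝ)
        linarith
      nlinarith
    linarith
  have hYp : Y < p := by
    have h1 : Y < (p : ℝ) ^ (1 : ℝ) := Real.rpow_lt_rpow_of_exponent_lt hp1 (by linarith)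
    rwa [Real.rpow_one] at h1
  -- the moduli
  have hSp : ∀ q ∈ ({p} : Finset ℕ), q.Prime := by
    intro q hq
    rw [Finset.mem_singleton] at hq
    rw [hq]
    exact hpp
  have hcm := rr_coprime N {p} hSp (fun q => F.factorization q)
  have hcn := rr_coprime N {p} hSp (fun _ => 1)
  have hP : (∏ q ∈ ({p} : Finset ℕ), q ^ (1 : ℕ)) = p := by
    rw [Finset.prod_singleton, pow_one]
  have hnm : nm (rr N {p}) (kw N {p} (E1, E2)) = Real.log E1 + Real.log E2 := nm_kw N {p} _ hadm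
  have hlam : lam (rr N {p}) (kw N {p} (E1, E2)) = Real.log E1 - Real.log E2 :=
    lam_kw N {p} _ hadm
  have hN1n : 1 ≤ N := by exact_mod_cast hN1
  have hlogN : Real.log N ≤ l := by
    rw [hl, le_div_iff₀ hε, mul_comm, ← Real.log_rpow hN0]
    exact Real.log_le_log (by positivity) hNp
  have hL1 : 8 * A * (N : ℝ) ^ ε * (p : ℝ) ^ (2 / 3 : ℝ) < L := by
    refine lt_of_le_of_lt ?_ hcon
    have h6 : 0 ≤ (2 * W + C2 * Real.exp Λ) * ((N : ℝ) ^ ε * (p : ℝ) ^ (2 / 3 : ℝ)) := by positivity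
    nlinarith
  have hLW : W * w ≤ L := by
    have h1 : 2 * W * ((N : ℝ) ^ ε * (p : ℝ) ^ (2 / 3 : ℝ)) ≤ L := by
      refine le_trans ?_ hcon.le
      have h6 : 0 ≤ (8 * A + C2 * Real.exp Λ) * ((N : ℝ) ^ ε * (p : ℝ) ^ (2 / 3 : ℝ)) := by
        positivity
      nlinarith
    have h2 := Real.log_le_rpow_div hp0.le (by norm_num : (0 : ℝ) < 2 / 3)
    have h3 : Real.log p ≤ 3 / 2 * (p : ℝ) ^ (2 / 3 : ℝ) := by
      calc Real.log p ≤ (p : ℝ) ^ (2 / 3 : ℝ) / (2 / 3) := h2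
        _ = 3 / 2 * (p : ℝ) ^ (2 / 3 : ℝ) := by ring
    have h4 : (p : ℝ) ^ (2 / 3 : ℝ) ≤ (N : ℝ) ^ ε * (p : ℝ) ^ (2 / 3 : ℝ) := by nlinarith
    have h5 : W * w ≤ W * (3 / 2 * ((N : ℝ) ^ ε * (p : ℝ) ^ (2 / 3 : ℝ))) :=
      mul_le_mul_of_nonneg_left (by linarith) (by linarith)
    have h6 : 0 ≤ W * ((N : ℝ) ^ ε * (p : ℝ) ^ (2 / 3 : ℝ)) := by positivity
    linarith
  -- pigeonhole
  obtain ⟨x, α, hx0, hchi, hnx, hlx, hα1, hα2⟩ := Ext.F_padic (rr N {p})
    (rr_prime N {p}) (rr_inj N {p}) (∏ q ∈ ({p} : Finset ℕ), q ^ (1 : ℕ))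
    (by rw [hP]; exact hpp.pos) hcn (kw N {p} (E1, E2)) L l w W Y K hK1 (c2Z Y) hL0 hW
    (by linarith) (by rw [hnm]; exact H.low) (by rw [hnm]; exact H.size)
    ((sum_kw N hN1n {p} _ hadm).trans hlogN)
    (fun s hs => ⟨(c2Z_mem Y s hs (by linarith)).1, (c2Z_mem Y s hs (by linarith)).2.1⟩)
    (by
      intro s hs q hq hqs
      obtain ⟨h1, h2, h3⟩ := c2Z_mem Y s hs (by linarith)
      have h4 : q ≤ s := Nat.le_of_dvd h3 hqs
      have h5 : s < p := by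
        have : (s : ℝ) < p := by linarith
        exact_mod_cast this
      refine exists_rr N {p} q hq (by omega) ?_
      rw [Finset.mem_singleton]
      omega)
    (by
      intro s hs s' hs' hmod
      rw [hP] at hmod
      obtain ⟨h1, h2, h3⟩ := c2Z_mem Y s hs (by linarith)
      obtain ⟨h1', h2', h3'⟩ := c2Z_mem Y s' hs' (by linarith)
      have h5 : s < p := by
        have : (s : ℝ) < p := by linarith
        exact_mod_cast this
      have h5' : s' < p := by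
        have : (s' : ℝ) < p := by linarith
        exact_mod_cast this
      unfold Nat.ModEq at hmod
      rwa [Nat.mod_eq_of_lt h5, Nat.mod_eq_of_lt h5'] at hmod)
    (by
      rw [hlogY, hw]
      nlinarith)
    (by
      rw [hP]
      exact c2_count ε e W C1 N p L l w _ hε he he4 he1 hW hC1 hp1 hpNR hl hw
        (hpow N {p} _ hadm) hL1 _ (c2Z_card Y hY4))
  -- contradiction
  have hrel : Rel (rr N {p}) (kw N {p} (E1, E2)) x α w L (1 + e / 4) := by
    refine ⟨rr_prime N {p}, rr_inj N {p}, by linarith, by linarith, ?_, ?_, hnx, ?_, hx0⟩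
    · rw [hnm]
      exact H.size
    · rw [hlam]
      refine hbal.trans ?_
      nlinarith
    · refine hlx.trans ?_
      have h1 : Real.log 2 ≤ 1 := by
        have := Real.log_le_sub_one_of_pos (by norm_num : (0 : ℝ) < 2)
        linarith
      have h2 : e / 4 * (Real.log p / 2) ≤ (1 + e / 4 - 1) * w := by
        have h3 : (1 + e / 4 - 1) * w = e / 4 * w := by ring
        rw [h3]
        exact mul_le_mul_of_nonneg_left hw12 (by positivity)
      linarith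
  refine core _ (rr N {p}) (kw N {p} (E1, E2)) x α w L (1 + e / 4) m hrel {p} hSp
    (fun q => F.factorization q) (fun _ => 1) (fun q _ => le_rfl) ?_ ?_ hcm hcn ?_ hchi hWw hLW
    hα1 hα2 ?_ (H.share_le {p} hS) ?_
  · intro q hq
    rw [Finset.mem_singleton] at hq
    rw [hq]
    exact hm1
  · intro q hq
    rw [Finset.mem_singleton] at hq
    simp only [hq]
    push_cast
    linarith
  · exact chi_kw N {p} _ hadm _ hcm (H.dvd {p} hS)
  · rw [Finset.sum_singleton]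
    refine le_trans ?_ hshare
    nlinarith
  · rw [Finset.sum_singleton]
    set I : ℝ := (F.factorization p : ℝ) * Real.log p with hI
    have hI0 : 0 < I := by
      have : (0 : ℝ) < (F.factorization p : ℝ) := by exact_mod_cast hm1
      positivity
    have h1 : (1 + e / 4) ^ 2 * L * (m : ℝ) * w = ((1 + e / 4) ^ 2 * (2 / 3 - e)) * (L * I) := by
      rw [hw, hI, hm]
      ring
    have h2 : (1 + e / 4) ^ 2 * (2 / 3 - e) ≤ (2 / 3 - e / 4) * (1 - e / 4) := by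
      nlinarith [mul_pos he he, mul_pos (mul_pos he he) he]
    have h3 : (2 / 3 - e / 4) * ((1 - e / 4) * L * I) ≤ (2 / 3 - e / 4) * I ^ 2 := by
      apply mul_le_mul_of_nonneg_left _ (by linarith)
      rw [sq]
      exact mul_le_mul_of_nonneg_right hshare hI0.le
    rw [h1]
    calc (1 + e / 4) ^ 2 * (2 / 3 - e) * (L * I) ≤ (2 / 3 - e / 4) * (1 - e / 4) * (L * I) := by
          apply mul_le_mul_of_nonneg_right h2
          positivity
      _ = (2 / 3 - e / 4) * ((1 - e / 4) * L * I) := by ring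
      _ ≤ (2 / 3 - e / 4) * I ^ 2 := h3

end Pool.ZB
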