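import Pool.Agent.Helper44.RA.V1
import Pool.Agent.Helper44.RA.C1
import Pool.Agent.Helper44.RA.O1

/-! Project ZB (MP_4ab349_nt): `log c ≤ C rad(abc)^(2/9+ε)` for all abc triples.  Definitions.
Paper: note 2740. -/

set_option autoImplicit false

namespace Pool.ZB

open Finset Pool.RA

variable {ι : Type} [Fintype ι]

/-- The norm of a point `v = (c, μ)`: `|c| w + 2 L |c α - μ|`. -/
noncomputable def gn (w L α : ℝ) (v : ℤ × ℤ) : ℝ :=
  |(v.1 : ℝ)| * w + 2 * L * |(v.1 : ℝ) * α - (v.2 : ℝ)|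

/-- The exponent vector `c x - μ k` of a point `v = (c, μ)`. -/
def pt (x k : ι → ℤ) (v : ℤ × ℤ) : ι → ℤ := v.1 • x - v.2 • k

/-- The vector `x` is close to `α k`, and both are balanced up to the factor `b` (`1 ≤ b ≤ 2`;
for `b = 2` the conditions on `lam` follow from those on `nm`). -/
structure Rel (r : ι → ℕ) (k x : ι → ℤ) (α w L b : ℝ) : Prop where
  prime : ∀ i, (r i).Prime
  inj : Function.Injective r
  hb1 : 1 ≤ b
  hb2 : b ≤ 2
  nmk : nm r k ≤ 2 * L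
  lamk : |lam r k| ≤ (b - 1) * (2 * L)
  nmx : nmR r (fun i => (x i : ℝ) - α * (k i : ℝ)) ≤ w
  lamx : |lamR r (fun i => (x i : ℝ) - α * (k i : ℝ))| ≤ (b - 1) * w
  x0 : x ≠ 0

/-- A relation `E1 = ± E2` modulo `F`; `N` bounds the radical of `E1 E2 F`, `L = log c`. -/
structure Tri (E1 E2 F N : ℕ) (L : ℝ) : Prop where
  pos1 : 0 < E1
  pos2 : 0 < E2
  posF : 0 < F
  c12 : E1.Coprime E2
  c1F : E1.Coprime F
  c2F : E2.Coprime F
  rel : (F : ℤ) ∣ (E1 : ℤ) - E2 ∨ (F : ℤ) ∣ (E1 : ℤ) + E2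
  rad : ∏ q ∈ (E1 * E2 * F).primeFactors, q ≤ N
  size : Real.log E1 + Real.log E2 ≤ 2 * L
  low : L ≤ 2 * (Real.log E1 + Real.log E2)
  sizeF : Real.log F ≤ L

/-- The exponent vector of `E.1 / E.2` on the primes `≤ Z` outside `S`. -/
def kw (Z : ℕ) (S : Finset ℕ) (E : ℕ × ℕ) : {p // p ∈ Pr Z S} → ℤ :=
  fun i => (E.1.factorization i.1 : ℤ) - (E.2.factorization i.1 : ℤ)

end Pool.ZB
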