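import Pool.Agent.Helper44.ZB.CoreP
import Pool.Agent.Helper73.ZB.CoreR1

/-! Project ZB, piece CoreR (helper73): the contradiction at the real place. -/

set_option autoImplicit false

namespace Pool.ZB

open Finset Pool.RA

/-- The real contradiction: `E_real`, `E_rank`, `geometry`, `core_num` with `b = 2`,
`Tm = I / n0`; `ρ = R_x`, `κ = R_k`, `R_v = ρ ^ c κ ^ (-μ)`, `G = ρ ^ C0`, and
`|κ ^ (-μ) - 1| ≤ exp (-(I - I / 100))`-like bounds because `|μ| ≤ |c| + 1 ≤ 2 L / w + 3`; apply `E_real`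
with a slightly smaller `I`. -/
theorem core_r (δ : ℝ) (hδ : 0 < δ) (hδ1 : δ ≤ 1 / 4) : ∃ W : ℝ, 1 ≤ W ∧
    ∀ (ι : Type) [Fintype ι] (r : ι → ℕ) (k x : ι → ℤ) (α w L : ℝ), Rel r k x α w L 2 →
    ∀ (I n0 : ℝ), |lam r k| ≤ Real.exp (-I) → |lam r x| ≤ Real.exp (-n0) → W ≤ n0 →
    W ≤ w → W * w ≤ L → W * w / L ≤ α → α ≤ 1 / W → δ * L ≤ I → I ≤ L →
    12 * L * w ≤ I * n0 → False :=
  core_r_aux δ hδ hδ1

end Pool.ZB
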