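import Pool.Agent.Helper44.ZB.KW
import Pool.Agent.Helper44.ZB.CoreR

/-! Project ZB, piece Case0 (helper66): a small entry. -/

set_option autoImplicit false

namespace Pool.ZB

open Finset Pool.RA

/-- Case 0, the choice of the constants (`w = (log N + l0) / K`, `n0 = (ε / 4) (log N + l0)`). -/
theorem case_real_num (ε τ W C1 : ℝ) (K : ℕ) (hε : 0 < ε) (hτ : 0 < τ) (hW : 1 ≤ W)
    (hC1 : 1 ≤ C1) (hK : 1 ≤ K) (hKb : 96 / (τ * ε) ≤ K) :
    ∃ C l0 : ℝ, 1 ≤ C ∧ 1 ≤ l0 ∧ ∀ N L : ℝ, 1 ≤ N → C * N ^ ε < L →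
      1 ≤ (Real.log N + l0) / K ∧ 0 ≤ ε / 4 * (Real.log N + l0) ∧
      W ≤ ε / 4 * (Real.log N + l0) ∧ W ≤ (Real.log N + l0) / K ∧
      W * ((Real.log N + l0) / K) ≤ L ∧
      (C1 * N ^ (ε / 4)) *
        ((2 * (Real.log N + l0) + 4) * Real.exp (ε / 4 * (Real.log N + l0))) *
        (8 * W ^ 2 * ((Real.log N + l0) / K) * (Real.log N + l0)) < L ∧
      Real.log 2 ≤ τ / 2 * L ∧
      12 * L * ((Real.log N + l0) / K) ≤ (τ / 2 * L) * (ε / 4 * (Real.log N + l0)) := by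
  have hK0 : (0 : ℝ) < K := by exact_mod_cast hK
  have hK1 : (1 : ℝ) ≤ K := by exact_mod_cast hK
  have hW0 : 0 < W := by linarith
  set l0 : ℝ := 4 * W / ε + K * W + 1 with hl0
  have hl0a : 0 < 4 * W / ε := by positivity
  have hl0b : 0 < K * W := by positivity
  set A : ℝ := 12 / ε + l0 with hA
  have hA0 : 0 < A := by
    have : 0 < 12 / ε := by positivity
    rw [hA]
    linarith
  set e0 : ℝ := Real.exp (ε / 4 * l0) with he0
  have he0' : 0 < e0 := Real.exp_pos _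
  set C : ℝ := 48 * C1 * e0 * W ^ 2 * A ^ 3 + W * A + 2 / τ + 1 with hC
  have hc1 : 0 ≤ 48 * C1 * e0 * W ^ 2 * A ^ 3 := by
    have : 0 ≤ C1 := by linarith
    positivity
  have hc2 : 0 ≤ W * A := by positivity
  have hc3 : 0 < 2 / τ := by positivity
  refine ⟨C, l0, by rw [hC]; linarith, by rw [hl0]; linarith, fun N L hN hL => ?_⟩
  set l : ℝ := Real.log N + l0 with hl
  have hlog : 0 ≤ Real.log N := Real.log_nonneg hN
  have hl1 : 1 ≤ l := by
    rw [hl, hl0]
    linarith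
  have hle : l0 ≤ l := by rw [hl]; linarith
  set x : ℝ := N ^ (ε / 12) with hx
  have hx1 : 1 ≤ x := Real.one_le_rpow hN (by positivity)
  have hx0 : 0 < x := by linarith
  have hN0 : 0 < N := by linarith
  have hx3 : N ^ (ε / 4) = x ^ 3 := by
    rw [hx, ← Real.rpow_natCast, ← Real.rpow_mul hN0.le]
    congr 1
    push_cast
    ring
  have hx12 : N ^ ε = x ^ 12 := by
    rw [hx, ← Real.rpow_natCast, ← Real.rpow_mul hN0.le]
    congr 1
    push_cast
    ring
  have hlA : l ≤ A * x := by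
    have h1 : Real.log N ≤ x / (ε / 12) := Real.log_le_rpow_div hN0.le (by positivity)
    have h2 : x / (ε / 12) = 12 / ε * x := by
      field_simp
    have h3 : l0 ≤ l0 * x := by
      have : 0 ≤ l0 := by rw [hl0]; linarith
      exact le_mul_of_one_le_right this hx1
    rw [hl, hA, add_mul]
    linarith
  have hlK : l / K ≤ l := div_le_self (by linarith) hK1
  have hlK0 : 0 < l / K := by positivity
  have hWK : W ≤ l / K := by
    rw [le_div_iff₀ hK0]
    have : W * K = K * W := mul_comm _ _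
    rw [hl0] at hle
    linarith
  have hexp : Real.exp (ε / 4 * l) = x ^ 3 * e0 := by
    rw [← hx3, he0, hl, mul_add, Real.exp_add, Real.rpow_def_of_pos hN0, mul_comm (Real.log N)]
  have hxp : ∀ n m : ℕ, n ≤ m → x ^ n ≤ x ^ m := fun n m h => pow_le_pow_right₀ hx1 h
  rw [hx12] at hL
  have hx12' : 1 ≤ x ^ 12 := one_le_pow₀ hx1
  have hLC : C ≤ C * x ^ 12 := by
    have : 0 ≤ C := by rw [hC]; linarith
    exact le_mul_of_one_le_right this hx12'
  have hL0 : 0 < L := by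
    have : 0 ≤ C := by rw [hC]; linarith
    linarith
  refine ⟨hW.trans hWK, by positivity, ?_, hWK, ?_, ?_, ?_, ?_⟩
  · have h1 : 4 * W / ε ≤ l := by
      rw [hl0] at hle
      linarith
    rw [div_le_iff₀ hε] at h1
    linarith
  · have h1 : W * (l / K) ≤ W * (A * x) := mul_le_mul_of_nonneg_left (hlK.trans hlA) hW0.le
    have h2 : W * (A * x) ≤ W * A * x ^ 12 := by
      have h3 : x ≤ x ^ 12 := by
        have := hxp 1 12 (by norm_num)
        rwa [pow_one] at this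
      have h4 : W * A * x ≤ W * A * x ^ 12 := mul_le_mul_of_nonneg_left h3 hc2
      linarith
    have h3 : W * A * x ^ 12 ≤ C * x ^ 12 := by
      apply mul_le_mul_of_nonneg_right _ (by positivity)
      rw [hC]
      linarith
    linarith
  · rw [hexp, hx3]
    have h1 : 2 * l + 4 ≤ 6 * (A * x) := by linarith
    have h2 : C1 * x ^ 3 * ((2 * l + 4) * (x ^ 3 * e0)) * (8 * W ^ 2 * (l / K) * l) ≤
        C1 * x ^ 3 * (6 * (A * x) * (x ^ 3 * e0)) * (8 * W ^ 2 * (A * x) * (A * x)) := by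
      have hC10 : 0 ≤ C1 := by linarith
      have h3 : 8 * W ^ 2 * (l / K) * l ≤ 8 * W ^ 2 * (A * x) * (A * x) := by
        have h4 : l / K ≤ A * x := hlK.trans hlA
        have h5 : 8 * W ^ 2 * (l / K) ≤ 8 * W ^ 2 * (A * x) :=
          mul_le_mul_of_nonneg_left h4 (by positivity)
        exact mul_le_mul h5 hlA (by linarith) (by positivity)
      have h4 : C1 * x ^ 3 * ((2 * l + 4) * (x ^ 3 * e0)) ≤
          C1 * x ^ 3 * (6 * (A * x) * (x ^ 3 * e0)) :=
        mul_le_mul_of_nonneg_left (mul_le_mul_of_nonneg_right h1 (by positivity)) (by positivity)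
      exact mul_le_mul h4 h3 (by positivity) (by positivity)
    have h3 : C1 * x ^ 3 * (6 * (A * x) * (x ^ 3 * e0)) * (8 * W ^ 2 * (A * x) * (A * x)) =
        48 * C1 * e0 * W ^ 2 * A ^ 3 * x ^ 9 := by ring
    have h4 : 48 * C1 * e0 * W ^ 2 * A ^ 3 * x ^ 9 ≤ 48 * C1 * e0 * W ^ 2 * A ^ 3 * x ^ 12 :=
      mul_le_mul_of_nonneg_left (hxp 9 12 (by norm_num)) hc1
    have h5 : 48 * C1 * e0 * W ^ 2 * A ^ 3 * x ^ 12 ≤ C * x ^ 12 := by
      apply mul_le_mul_of_nonneg_right _ (by positivity)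
      rw [hC]
      linarith
    linarith
  · have h1 : 2 / τ ≤ L := by
      have : 2 / τ ≤ C := by rw [hC]; linarith
      linarith
    rw [div_le_iff₀ hτ] at h1
    have h2 : Real.log 2 < 1 := by
      have := Real.log_two_lt_d9
      linarith
    linarith
  · have h1 : 96 ≤ (K : ℝ) * (τ * ε) := by
      rwa [div_le_iff₀ (by positivity)] at hKb
    have h2 : 12 * L * (l / K) = L * l * (96 / (8 * K)) := by
      field_simp
      ring
    have h3 : τ / 2 * L * (ε / 4 * l) = L * l * (τ * ε / 8) := by ring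
    rw [h2, h3]
    apply mul_le_mul_of_nonneg_left _ (by positivity)
    rw [div_le_div_iff₀ (by positivity) (by norm_num)]
    have h4 : τ * ε * (8 * K) = 8 * (K * (τ * ε)) := by ring
    rw [h4]
    linarith

/-- `|lam| ≤ nm`. -/
theorem case_real_lam {ι : Type} [Fintype ι] (r : ι → ℕ) (x : ι → ℝ) :
    |lamR r x| ≤ nmR r x := by
  unfold lamR nmR
  refine (Finset.abs_sum_le_sum_abs _ _).trans (sum_le_sum fun i _ => ?_)
  rw [abs_mul, abs_of_nonneg (Real.log_natCast_nonneg _)]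

/-- If `a ≤ c^(1-τ)` then `log c ≤ C N^ε`.  Proof: `L = log c`, `l = log N + l0` (`l0` large,
depending on `ε, τ`), `k = kw N ∅ (c, b)`, `0 ≤ lam k = log (c / b) ≤ a / b ≤ 2 c^(-τ) = exp (-I)`,
`I = τ L - log 2`, `n0 = (ε / 4) l`, `w = l / K` with `12 L w ≤ I n0` for `K ≥ 100 / (τ ε)`.  If
`L > C N^ε` then `F_real` (with `Δ` = the `W` of `core_r`, and `K^ω ≤ C' N^(ε/4)`) gives `x, α`
and `core_r` (`δ = min (1/4) (τ/2)`) the contradiction. -/
theorem case_real (ε τ : ℝ) (hε : 0 < ε) (hτ : 0 < τ) (hτ1 : τ < 1) : ∃ C : ℝ, 1 ≤ C ∧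
    ∀ a b : ℕ, 0 < a → a ≤ b → a.Coprime b → (a : ℝ) ≤ ((a + b : ℕ) : ℝ) ^ (1 - τ) →
      Real.log ((a + b : ℕ) : ℝ) ≤
        C * ((∏ q ∈ (a * b * (a + b)).primeFactors, q : ℕ) : ℝ) ^ ε := by
  obtain ⟨W, hW, hcore⟩ := core_r (min (1 / 4) (τ / 2)) (lt_min (by norm_num) (by linarith))
    (min_le_left _ _)
  obtain ⟨K, hK⟩ := exists_nat_ge (96 / (τ * ε))
  have hK1 : 1 ≤ K + 1 := Nat.le_add_left 1 K
  have hKb : 96 / (τ * ε) ≤ ((K + 1 : ℕ) : ℝ) := hK.trans (by push_cast; linarith)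
  obtain ⟨C1, hC1, hpow⟩ := pow_kw (K + 1) hK1 (ε / 4) (by positivity)
  obtain ⟨C, l0, hC, hl0, hnum⟩ := case_real_num ε τ W C1 (K + 1) hε hτ hW hC1 hK1 hKb
  refine ⟨C, hC, fun a b ha hab hcop hsmall => ?_⟩
  by_contra hcon
  rw [not_le] at hcon
  set N : ℕ := ∏ q ∈ (a * b * (a + b)).primeFactors, q with hNdef
  set L : ℝ := Real.log ((a + b : ℕ) : ℝ) with hLdef
  have hb : 0 < b := lt_of_lt_of_le ha hab
  have hc : 0 < a + b := by omega
  have hN1 : 1 ≤ N := Finset.prod_pos fun q hq => (Nat.prime_of_mem_primeFactors hq).pos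
  have hN1' : (1 : ℝ) ≤ N := by exact_mod_cast hN1
  obtain ⟨n1, n2, n3, n4, n5, n6, n7, n8⟩ := hnum N L hN1' hcon
  set l : ℝ := Real.log N + l0 with hl
  set w : ℝ := l / ((K + 1 : ℕ) : ℝ) with hw
  set n0 : ℝ := ε / 4 * l with hn0
  -- the vector `k`
  have hE : Adm N ∅ (a + b, b) := by
    refine ⟨hc, hb, ?_, by simp, ?_⟩
    · exact (Nat.coprime_add_self_left).2 hcop
    · rw [hNdef]
      refine Finset.prod_le_prod_of_subset_of_one_le' ?_ fun q hq _ =>
        (Nat.prime_of_mem_primeFactors hq).one_le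
      apply Nat.primeFactors_mono
      · exact ⟨a, by ring⟩
      · positivity
  set r := rr N ∅ with hr
  set k := kw N ∅ (a + b, b) with hk
  have hb0 : (0 : ℝ) < b := by exact_mod_cast hb
  have hc0 : (0 : ℝ) < ((a + b : ℕ) : ℝ) := by exact_mod_cast hc
  have hnm : nm r k = L + Real.log b := nm_kw N ∅ (a + b, b) hE
  have hlam : lam r k = L - Real.log b := lam_kw N ∅ (a + b, b) hE
  have hbc : (b : ℝ) ≤ ((a + b : ℕ) : ℝ) := by exact_mod_cast Nat.le_add_left b a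
  have hlb : Real.log b ≤ L := Real.log_le_log hb0 hbc
  have hlb0 : 0 ≤ Real.log b := Real.log_natCast_nonneg _
  have hN0 : (0 : ℝ) ≤ C * (N : ℝ) ^ ε := by positivity
  have hL0 : 0 < L := by linarith
  -- the small form
  have hlamk : |lam r k| ≤ Real.exp (-(τ * L - Real.log 2)) := by
    rw [hlam, abs_of_nonneg (by linarith)]
    have h1 : L - Real.log b = Real.log (((a + b : ℕ) : ℝ) / b) := by
      rw [Real.log_div hc0.ne' hb0.ne']
    have h2 : Real.log (((a + b : ℕ) : ℝ) / b) ≤ ((a + b : ℕ) : ℝ) / b - 1 :=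
      Real.log_le_sub_one_of_pos (by positivity)
    have h3 : ((a + b : ℕ) : ℝ) / b - 1 = a / b := by
      push_cast
      field_simp
      ring
    have h4 : (a : ℝ) / b ≤ 2 * (((a + b : ℕ) : ℝ) ^ (1 - τ) / ((a + b : ℕ) : ℝ)) := by
      rw [div_le_iff₀ hb0]
      have h5 : ((a + b : ℕ) : ℝ) ≤ 2 * b := by
        have : (a : ℝ) ≤ b := by exact_mod_cast hab
        push_cast
        linarith
      have h6 : 0 ≤ ((a + b : ℕ) : ℝ) ^ (1 - τ) / ((a + b : ℕ) : ℝ) := by positivity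
      calc (a : ℝ) ≤ ((a + b : ℕ) : ℝ) ^ (1 - τ) := hsmall
        _ = (((a + b : ℕ) : ℝ) ^ (1 - τ) / ((a + b : ℕ) : ℝ)) * ((a + b : ℕ) : ℝ) := by
            field_simp
        _ ≤ (((a + b : ℕ) : ℝ) ^ (1 - τ) / ((a + b : ℕ) : ℝ)) * (2 * b) :=
            mul_le_mul_of_nonneg_left h5 h6
        _ = _ := by ring
    have h5 : Real.exp (-(τ * L - Real.log 2)) =
        2 * (((a + b : ℕ) : ℝ) ^ (1 - τ) / ((a + b : ℕ) : ℝ)) := by
      rw [neg_sub, Real.exp_sub, Real.exp_log (by norm_num : (0 : ℝ) < 2)]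
      rw [Real.rpow_sub hc0, Real.rpow_one]
      have h6 : Real.exp (τ * L) = ((a + b : ℕ) : ℝ) ^ τ := by
        rw [Real.rpow_def_of_pos hc0, mul_comm]
      rw [h6]
      field_simp
    rw [h5, h1]
    linarith
  have hI0 : 0 ≤ τ * L - Real.log 2 := by
    have : τ / 2 * L ≤ τ * L := mul_le_mul_of_nonneg_right (by linarith) hL0.le
    linarith
  have hlamk1 : |lam r k| ≤ 1 := hlamk.trans (Real.exp_le_one_iff.2 (by linarith))
  -- first pigeonhole
  have hl1 : 1 ≤ l := by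
    have := Real.log_nonneg hN1'
    rw [hl]
    linarith
  have hpk : ((K + 1 : ℕ) : ℝ) ^ #{i | k i ≠ 0} ≤ C1 * (N : ℝ) ^ (ε / 4) := hpow N ∅ (a + b, b) hE
  have hW0 : 0 < W := by linarith
  have hw0 : 0 < w := by linarith
  obtain ⟨x, α, hx0, hxl, hxn, hα1, hα2⟩ := Ext.F_real r (rr_prime N ∅) (rr_inj N ∅) k L l w W n0
    (K + 1) hK1 hL0 hW n1 (by rw [hnm]; linarith) (by rw [hnm]; linarith)
    ((sum_kw N hN1 ∅ (a + b, b) hE).trans (by rw [hl]; linarith)) le_rfl n2 hlamk1 (by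
      refine lt_of_le_of_lt ?_ n6
      apply mul_le_mul_of_nonneg_right _ (by positivity)
      exact mul_le_mul_of_nonneg_right hpk (by positivity))
  have hrel : Rel r k x α w L 2 := by
    refine ⟨rr_prime N ∅, rr_inj N ∅, by norm_num, le_rfl, by rw [hnm]; linarith, ?_, hxn, ?_, hx0⟩
    · rw [hlam, abs_of_nonneg (by linarith)]
      linarith
    · exact (case_real_lam r _).trans (by linarith)
  refine hcore _ r k x α w L hrel (τ * L - Real.log 2) n0 hlamk hxl n3 n4 n5 hα1 hα2 ?_ ?_ ?_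
  · have h1 : min (1 / 4) (τ / 2) * L ≤ τ / 2 * L :=
      mul_le_mul_of_nonneg_right (min_le_right _ _) hL0.le
    linarith
  · have h1 : 0 < Real.log 2 := Real.log_pos (by norm_num)
    have h2 : τ * L ≤ L := mul_le_of_le_one_left hL0.le hτ1.le
    linarith
  · have h1 : τ / 2 * L ≤ τ * L - Real.log 2 := by linarith
    exact n8.trans (mul_le_mul_of_nonneg_right h1 n2)

end Pool.ZB
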