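import Pool.Agent.Helper44.ZB.Defs
import Pool.Agent.Helper42.ZB.E4
import Pool.Agent.Helper93.ZB.Geom
import Pool.Agent.Helper1.ZB.Pig

/-! Project ZB: imports of the engine, the geometry and the first pigeonholes. -/

set_option autoImplicit false

namespace Pool.ZB.Ext

open Finset Pool.RA Pool.ZB

variable {ι : Type} [Fintype ι]

/-- First pigeonhole, p-adic (helper1). -/
theorem F_padic (r : ι → ℕ) (hr : ∀ i, (r i).Prime) (hinj : Function.Injective r) (P : ℕ)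
    (hP : 0 < P) (h : ∀ i, (r i).Coprime P) (k : ι → ℤ) (L l w Δ Y : ℝ) (K : ℕ) (hK : 1 ≤ K)
    (ZZ : Finset ℕ) (hL : 0 < L) (hΔ : 1 ≤ Δ) (hw1 : 1 ≤ w) (hk1 : L ≤ 2 * nm r k)
    (hk2 : nm r k ≤ 2 * L) (hl : ∑ i with k i ≠ 0, Real.log (r i) ≤ l)
    (hZ : ∀ s ∈ ZZ, Y / 2 < s ∧ (s : ℝ) ≤ Y)
    (hZr : ∀ s ∈ ZZ, ∀ q, q.Prime → q ∣ s → ∃ i, r i = q)
    (hZP : ∀ s ∈ ZZ, ∀ s' ∈ ZZ, s ≡ s' [MOD P] → s = s') (hw : l / K + 2 * Real.log Y ≤ w)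
    (hc : (K : ℝ) ^ #{i | k i ≠ 0} * P * (8 * Δ ^ 2 * w * l) < L * #ZZ) :
    ∃ (x : ι → ℤ) (α : ℝ), x ≠ 0 ∧ chi r P h x = 1 ∧
      nmR r (fun i => (x i : ℝ) - α * (k i : ℝ)) ≤ w ∧
      |lamR r (fun i => (x i : ℝ) - α * (k i : ℝ))| ≤ l / K + Real.log 2 ∧
      Δ * w / L ≤ α ∧ α ≤ 1 / Δ :=
  Pool.ZB.F_padic r hr hinj P hP h k L l w Δ Y K hK ZZ hL hΔ hw1 hk1 hk2 hl hZ hZr hZP hw hc

/-- First pigeonhole, real place (helper1). -/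
theorem F_real (r : ι → ℕ) (hr : ∀ i, (r i).Prime) (hinj : Function.Injective r)
    (k : ι → ℤ) (L l w Δ n0 : ℝ) (K : ℕ) (hK : 1 ≤ K) (hL : 0 < L) (hΔ : 1 ≤ Δ) (hw1 : 1 ≤ w)
    (hk1 : L ≤ 2 * nm r k) (hk2 : nm r k ≤ 2 * L) (hl : ∑ i with k i ≠ 0, Real.log (r i) ≤ l)
    (hw : l / K ≤ w) (hn0 : 0 ≤ n0) (hlam : |lam r k| ≤ 1)
    (hc : (K : ℝ) ^ #{i | k i ≠ 0} * ((2 * l + 4) * Real.exp n0) * (8 * Δ ^ 2 * w * l) < L) :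
    ∃ (x : ι → ℤ) (α : ℝ), x ≠ 0 ∧ |lam r x| ≤ Real.exp (-n0) ∧
      nmR r (fun i => (x i : ℝ) - α * (k i : ℝ)) ≤ w ∧ Δ * w / L ≤ α ∧ α ≤ 1 / Δ :=
  Pool.ZB.F_real r hr hinj k L l w Δ n0 K hK hL hΔ hw1 hk1 hk2 hl hw hn0 hlam hc

end Pool.ZB.Ext
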