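import Pool.Agent.Helper44.ZB.Case0
import Pool.Agent.Helper44.ZB.Case1
import Pool.Agent.Helper44.ZB.Case2

/-! Project ZB, piece Final (helper26): choice of the primes and assembly. -/

set_option autoImplicit false

namespace Pool.ZB

open Finset Pool.RA

/-- Either a set `Q` of elements has `∑_Q lp ≤ (2/3) ∑ lp` and share `≥ s0`, or one element has
share `≥ 1 - s0` and `lp > (2/3) ∑ lp`.  Proof: if some `lp i > (1/3) ∑ lp`, the rest has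
`∑ lp ≤ (2/3) ∑ lp`, so (unless its share is `≥ s0`) `i` has share `> 1 - s0 ≥ s0`, and `{i}` works
unless `lp i > (2/3) ∑ lp`.  Otherwise take `Q` maximal with `∑_Q lp ≤ (2/3) ∑ lp`; adding any other
element passes `2/3`, so `∑_Q lp > 1/3` and the complement has `∑ lp < 2/3`; `Q` or the complement
has share `≥ 1/2`. -/
theorem share (s : Finset ℕ) (lp sg : ℕ → ℝ) (hlp : ∀ i ∈ s, 0 < lp i) (hsg : ∀ i ∈ s, 0 ≤ sg i)
    (s0 : ℝ) (hs0 : 0 < s0) (hs1 : s0 ≤ 1 / 2) :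
    (∃ Q ⊆ s, ∑ i ∈ Q, lp i ≤ 2 / 3 * ∑ i ∈ s, lp i ∧ s0 * ∑ i ∈ s, sg i ≤ ∑ i ∈ Q, sg i) ∨
    (∃ i ∈ s, (1 - s0) * ∑ i ∈ s, sg i ≤ sg i ∧ 2 / 3 * ∑ i ∈ s, lp i < lp i) := by
  sorry

/-- One entry `F` which is not small: `log F ≥ (1 - τ) L`. -/
theorem entry (ε : ℝ) (hε : 0 < ε) : ∃ τ C : ℝ, 0 < τ ∧ τ < 1 ∧ 1 ≤ C ∧
    ∀ (E1 E2 F N : ℕ) (L : ℝ), Tri E1 E2 F N L → (1 - τ) * L ≤ Real.log F →
      |Real.log E1 - Real.log E2| ≤ τ * L → 0 < L →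
      L ≤ C * (N : ℝ) ^ ε * ((∏ q ∈ F.primeFactors, q : ℕ) : ℝ) ^ (2 / 3 : ℝ) := by
  sorry

/-- The three relations of a triple. -/
theorem tri_a (a b : ℕ) (ha : 0 < a) (hb : 0 < b) (h : a.Coprime b) (hc : 3 ≤ a + b) :
    Tri (a + b) b a (∏ q ∈ (a * b * (a + b)).primeFactors, q) (Real.log ((a + b : ℕ) : ℝ)) := by
  sorry

theorem tri_b (a b : ℕ) (ha : 0 < a) (hb : 0 < b) (h : a.Coprime b) (hc : 3 ≤ a + b) :
    Tri (a + b) a b (∏ q ∈ (a * b * (a + b)).primeFactors, q) (Real.log ((a + b : ℕ) : ℝ)) := by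
  sorry

/-- Here `low` needs `c ≤ (c - 1) ^ 2 ≤ (a b) ^ 2` for `c ≥ 3`. -/
theorem tri_c (a b : ℕ) (ha : 0 < a) (hb : 0 < b) (h : a.Coprime b) (hc : 3 ≤ a + b) :
    Tri a b (a + b) (∏ q ∈ (a * b * (a + b)).primeFactors, q) (Real.log ((a + b : ℕ) : ℝ)) := by
  sorry

/-- The theorem, for each entry. -/
theorem main (ε : ℝ) (hε : 0 < ε) : ∃ C : ℝ, 1 ≤ C ∧
    ∀ a b : ℕ, 0 < a → 0 < b → a.Coprime b → ∀ F : ℕ, (F = a ∨ F = b ∨ F = a + b) →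
      Real.log ((a + b : ℕ) : ℝ) ≤
        C * ((∏ q ∈ (a * b * (a + b)).primeFactors, q : ℕ) : ℝ) ^ ε *
          ((∏ q ∈ F.primeFactors, q : ℕ) : ℝ) ^ (2 / 3 : ℝ) := by
  sorry

/-- The exponent `2/9`. -/
theorem main29 (ε : ℝ) (hε : 0 < ε) : ∃ C : ℝ, 1 ≤ C ∧
    ∀ a b : ℕ, 0 < a → 0 < b → a.Coprime b →
      Real.log ((a + b : ℕ) : ℝ) ≤
        C * ((∏ q ∈ (a * b * (a + b)).primeFactors, q : ℕ) : ℝ) ^ (2 / 9 + ε) := by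
  sorry

end Pool.ZB
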