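import Pool.Agent.Helper44.ZB.Defs

/-! Project ZB, piece KW (helper71): the exponent vector of `E.1 / E.2`.  Compare RA/C1.lean, where
the vector is multiplied by 2. -/

set_option autoImplicit false

namespace Pool.ZB

open Finset Pool.RA

private theorem kw_mem (Z : ℕ) (S : Finset ℕ) (E : ℕ × ℕ) (hE : Adm Z S E) (p : ℕ)
    (hp : p.Prime) (hd : p ∣ E.1 * E.2) : p ∈ Pr Z S := by
  obtain ⟨h1, h2, -, h4, h5⟩ := hE
  have hne : E.1 * E.2 ≠ 0 := (Nat.mul_pos h1 h2).ne'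
  have hmem : p ∈ (E.1 * E.2).primeFactors := Nat.mem_primeFactors.2 ⟨hp, hd, hne⟩
  have hpos : 0 < ∏ p ∈ (E.1 * E.2).primeFactors, p :=
    Finset.prod_pos fun q hq => (Nat.prime_of_mem_primeFactors hq).pos
  have hle : p ≤ Z := (Nat.le_of_dvd hpos (Finset.dvd_prod_of_mem _ hmem)).trans h5
  unfold Pr
  rw [mem_filter, mem_range]
  exact ⟨Nat.lt_succ_of_le hle, hp, fun hS => h4 p hS hd⟩

private theorem kw_prod (Z : ℕ) (S : Finset ℕ) (n : ℕ) (hn : 0 < n)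
    (h : ∀ p, p.Prime → p ∣ n → p ∈ Pr Z S) :
    ∏ i : {p // p ∈ Pr Z S}, (rr Z S i) ^ (n.factorization i.1) = n := by
  have h1 : ∏ i : {p // p ∈ Pr Z S}, (rr Z S i) ^ (n.factorization i.1) =
      ∏ p ∈ Pr Z S, p ^ (n.factorization p) :=
    Finset.prod_coe_sort (Pr Z S) (fun p => p ^ (n.factorization p))
  rw [h1]
  have h2 := Nat.prod_factorization_pow_eq_self hn.ne'
  rw [Finsupp.prod_of_support_subset _ (s := Pr Z S) ?_ _
    (fun i _ => pow_zero i)] at h2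
  · exact h2
  · rw [Nat.support_factorization]
    intro p hp
    exact h p (Nat.prime_of_mem_primeFactors hp) (Nat.dvd_of_mem_primeFactors hp)

private theorem kw_cop (E : ℕ × ℕ) (hc : E.1.Coprime E.2) (p : ℕ) (hp : p.Prime) :
    E.1.factorization p = 0 ∨ E.2.factorization p = 0 := by
  by_cases h1 : p ∣ E.1
  · right
    apply Nat.factorization_eq_zero_of_not_dvd
    intro h2
    exact hp.one_lt.ne' (Nat.dvd_one.1 (hc ▸ Nat.dvd_gcd h1 h2))
  · left
    exact Nat.factorization_eq_zero_of_not_dvd h1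

theorem nu_kw (Z : ℕ) (S : Finset ℕ) (E : ℕ × ℕ) (hE : Adm Z S E) :
    Nu (rr Z S) (kw Z S E) = E.1 := by
  have key := kw_prod Z S E.1 hE.1 fun p hp hd => kw_mem Z S E hE p hp (hd.mul_right _)
  refine Eq.trans ?_ key
  unfold Nu
  refine Finset.prod_congr rfl fun i _ => ?_
  congr 1
  unfold kw
  rcases kw_cop E hE.2.2.1 i.1 (rr_prime Z S i) with h | h
  · rw [h]; simp
  · rw [h]; omega

theorem de_kw (Z : ℕ) (S : Finset ℕ) (E : ℕ × ℕ) (hE : Adm Z S E) :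
    De (rr Z S) (kw Z S E) = E.2 := by
  have key := kw_prod Z S E.2 hE.2.1 fun p hp hd => kw_mem Z S E hE p hp (hd.mul_left _)
  refine Eq.trans ?_ key
  unfold De
  refine Finset.prod_congr rfl fun i _ => ?_
  congr 1
  unfold kw
  rcases kw_cop E hE.2.2.1 i.1 (rr_prime Z S i) with h | h
  · rw [h]; omega
  · rw [h]; omega

theorem nm_kw (Z : ℕ) (S : Finset ℕ) (E : ℕ × ℕ) (hE : Adm Z S E) :
    nm (rr Z S) (kw Z S E) = Real.log E.1 + Real.log E.2 := by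
  rw [← log_nu_add (rr Z S) (fun i => (rr_prime Z S i).one_le), nu_kw Z S E hE, de_kw Z S E hE]

theorem lam_kw (Z : ℕ) (S : Finset ℕ) (E : ℕ × ℕ) (hE : Adm Z S E) :
    lam (rr Z S) (kw Z S E) = Real.log E.1 - Real.log E.2 := by
  rw [lam_eq (rr Z S) (fun i => (rr_prime Z S i).one_le), nu_kw Z S E hE, de_kw Z S E hE]

private theorem kw_de_unit {ι : Type} [Fintype ι] (r : ι → ℕ) (m : ℕ)
    (h : ∀ i, (r i).Coprime m) (x : ι → ℤ) : IsUnit ((De r x : ℕ) : ZMod m) := by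
  rw [ZMod.isUnit_iff_coprime]
  exact Nat.Coprime.prod_left fun i _ => Nat.Coprime.pow_left _ (h i)

theorem chi_kw (Z : ℕ) (S : Finset ℕ) (E : ℕ × ℕ) (hE : Adm Z S E) (m : ℕ)
    (h : ∀ i, (rr Z S i).Coprime m)
    (hm : (m : ℤ) ∣ (E.1 : ℤ) - E.2 ∨ (m : ℤ) ∣ (E.1 : ℤ) + E.2) :
    chi (rr Z S) m h (kw Z S E) = 1 ∨ chi (rr Z S) m h (kw Z S E) = -1 := by
  rcases hm with hm | hm
  · left
    rw [chi_eq_one_iff, nu_kw Z S E hE, de_kw Z S E hE]
    exact hm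
  · right
    have h1 := nu_eq (rr Z S) m h (kw Z S E)
    rw [nu_kw Z S E hE, de_kw Z S E hE] at h1
    have hu := kw_de_unit (rr Z S) m h (kw Z S E)
    rw [de_kw Z S E hE] at hu
    have h2 : ((E.1 : ℕ) : ZMod m) = (-1 : ZMod m) * ((E.2 : ℕ) : ZMod m) := by
      rw [← CharP.intCast_eq_zero_iff (ZMod m) m] at hm
      push_cast at hm
      linear_combination hm
    apply Units.ext
    rw [Units.val_neg, Units.val_one]
    refine hu.mul_right_cancel ?_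
    rw [← h1, h2]

/-- The prime factors. -/
theorem kw_support (Z : ℕ) (S : Finset ℕ) (E : ℕ × ℕ) (hE : Adm Z S E)
    (i : {p // p ∈ Pr Z S}) : kw Z S E i ≠ 0 ↔ i.1 ∣ E.1 * E.2 := by
  have hp := rr_prime Z S i
  have hp' : i.1.Prime := hp
  have h12 := hE.2.2.1
  constructor
  · intro h
    by_contra hd
    apply h
    have h1 : ¬ (i.1 ∣ E.1) := fun h => hd (h.mul_right _)
    have h2 : ¬ (i.1 ∣ E.2) := fun h => hd (h.mul_left _)
    unfold kw
    rw [Nat.factorization_eq_zero_of_not_dvd h1, Nat.factorization_eq_zero_of_not_dvd h2]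
    simp
  · intro hd h
    unfold kw at h
    rcases (hp'.dvd_mul).1 hd with h1 | h1
    · have h3 : 0 < E.1.factorization i.1 := hp'.factorization_pos_of_dvd hE.1.ne' h1
      have h4 : E.2.factorization i.1 = 0 := by
        rcases kw_cop E h12 i.1 hp' with h5 | h5
        · omega
        · exact h5
      omega
    · have h3 : 0 < E.2.factorization i.1 := hp'.factorization_pos_of_dvd hE.2.1.ne' h1
      have h4 : E.1.factorization i.1 = 0 := by
        rcases kw_cop E h12 i.1 hp' with h5 | h5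
        · exact h5
        · omega
      omega

/-- The indices of nonzero coordinates. -/
theorem kw_prod_support (Z : ℕ) (S : Finset ℕ) (E : ℕ × ℕ) (hE : Adm Z S E) :
    ∏ i ∈ univ.filter (fun i => kw Z S E i ≠ 0), rr Z S i =
      ∏ p ∈ (E.1 * E.2).primeFactors, p := by
  classical
  rw [← Finset.prod_image (g := rr Z S) (f := fun p => p)
    (fun i _ j _ h => rr_inj Z S h)]
  apply Finset.prod_congr ?_ (fun _ _ => rfl)
  ext p
  rw [Finset.mem_image]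
  constructor
  · rintro ⟨i, hi, rfl⟩
    rw [mem_filter, kw_support Z S E hE] at hi
    exact Nat.mem_primeFactors.2 ⟨rr_prime Z S i, hi.2, (Nat.mul_pos hE.1 hE.2.1).ne'⟩
  · intro hp
    obtain ⟨h1, h2, -⟩ := Nat.mem_primeFactors.1 hp
    refine ⟨⟨p, kw_mem Z S E hE p h1 h2⟩, ?_, rfl⟩
    rw [mem_filter, kw_support Z S E hE]
    exact ⟨mem_univ _, h2⟩

/-- The support is the set of prime factors of `E.1 * E.2`, whose product is at most `Z`. -/
theorem sum_kw (Z : ℕ) (hZ : 1 ≤ Z) (S : Finset ℕ) (E : ℕ × ℕ) (hE : Adm Z S E) :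
    ∑ i with kw Z S E i ≠ 0, Real.log (rr Z S i) ≤ Real.log Z := by
  have h1 : ∑ i with kw Z S E i ≠ 0, Real.log (rr Z S i) =
      Real.log ((∏ i ∈ univ.filter (fun i => kw Z S E i ≠ 0), rr Z S i : ℕ) : ℝ) := by
    rw [Nat.cast_prod, Real.log_prod]
    intro i _
    have := (rr_prime Z S i).pos
    positivity
  rw [h1, kw_prod_support Z S E hE]
  apply Real.log_le_log
  · exact_mod_cast Finset.prod_pos fun q hq => (Nat.prime_of_mem_primeFactors hq).pos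
  · exact_mod_cast hE.2.2.2.2

theorem kw_card (Z : ℕ) (S : Finset ℕ) (E : ℕ × ℕ) (hE : Adm Z S E) :
    (univ.filter (fun i => kw Z S E i ≠ 0)).card = (E.1 * E.2).primeFactors.card := by
  classical
  rw [← Finset.card_image_of_injective _ (rr_inj Z S)]
  congr 1
  ext p
  rw [Finset.mem_image]
  constructor
  · rintro ⟨i, hi, rfl⟩
    rw [mem_filter, kw_support Z S E hE] at hi
    exact Nat.mem_primeFactors.2 ⟨rr_prime Z S i, hi.2, (Nat.mul_pos hE.1 hE.2.1).ne'⟩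
  · intro hp
    obtain ⟨h1, h2, -⟩ := Nat.mem_primeFactors.1 hp
    refine ⟨⟨p, kw_mem Z S E hE p h1 h2⟩, ?_, rfl⟩
    rw [mem_filter, kw_support Z S E hE]
    exact ⟨mem_univ _, h2⟩

/-- From `Pool.RA.pow_card_le`. -/
theorem pow_kw (K : ℕ) (hK : 1 ≤ K) (ε : ℝ) (hε : 0 < ε) : ∃ C : ℝ, 1 ≤ C ∧
    ∀ (Z : ℕ) (S : Finset ℕ) (E : ℕ × ℕ), Adm Z S E →
      (K : ℝ) ^ #{i | kw Z S E i ≠ 0} ≤ C * (Z : ℝ) ^ ε := by
  obtain ⟨C, hC, h⟩ := pow_card_le K hK ε hε
  refine ⟨C, hC, fun Z S E hE => ?_⟩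
  rw [kw_card Z S E hE]
  refine (h _ fun p hp => Nat.prime_of_mem_primeFactors hp).trans ?_
  refine mul_le_mul_of_nonneg_left ?_ (by linarith)
  exact Real.rpow_le_rpow (Nat.cast_nonneg _) (by exact_mod_cast hE.2.2.2.2) hε.le

/-- Every prime `q ≤ Z` outside `S` is one of the `rr Z S i`. -/
theorem exists_rr (Z : ℕ) (S : Finset ℕ) (q : ℕ) (hq : q.Prime) (h1 : q ≤ Z) (h2 : q ∉ S) :
    ∃ i, rr Z S i = q := by
  refine ⟨⟨q, ?_⟩, rfl⟩
  rw [Pr, mem_filter, mem_range]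
  exact ⟨Nat.lt_succ_of_le h1, hq, h2⟩

/-- The pair of a relation is admissible. -/
theorem Tri.adm {E1 E2 F N : ℕ} {L : ℝ} (H : Tri E1 E2 F N L) (S : Finset ℕ)
    (hS : S ⊆ F.primeFactors) : Adm N S (E1, E2) := by
  refine ⟨H.pos1, H.pos2, H.c12, fun p hp hd => ?_, ?_⟩
  · obtain ⟨hp1, hp2, -⟩ := Nat.mem_primeFactors.1 (hS hp)
    rcases (hp1.dvd_mul).1 hd with h | h
    · exact hp1.one_lt.ne' (Nat.dvd_one.1 (H.c1F ▸ Nat.dvd_gcd h hp2))
    · exact hp1.one_lt.ne' (Nat.dvd_one.1 (H.c2F ▸ Nat.dvd_gcd h hp2))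
  · refine le_trans (Nat.le_of_dvd ?_ ?_) H.rad
    · exact Finset.prod_pos fun q hq => (Nat.prime_of_mem_primeFactors hq).pos
    · exact Finset.prod_dvd_prod_of_subset _ _ _ (Nat.primeFactors_mono (dvd_mul_right _ _)
        (Nat.mul_pos (Nat.mul_pos H.pos1 H.pos2) H.posF).ne')

private theorem tri_prod_dvd {F : ℕ} (hF : 0 < F) (S : Finset ℕ) (hS : S ⊆ F.primeFactors) :
    ∏ p ∈ S, p ^ F.factorization p ∣ F := by
  have h := Finset.prod_dvd_prod_of_subset S F.primeFactors (fun p => p ^ F.factorization p) hS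
  have h2 : ∏ p ∈ F.primeFactors, p ^ F.factorization p = F :=
    Nat.prod_factorization_pow_eq_self hF.ne'
  rwa [h2] at h

/-- The modulus `∏ p ^ v_p(F)`, `p ∈ S`, divides `E1 ± E2`. -/
theorem Tri.dvd {E1 E2 F N : ℕ} {L : ℝ} (H : Tri E1 E2 F N L) (S : Finset ℕ)
    (hS : S ⊆ F.primeFactors) :
    ((∏ p ∈ S, p ^ F.factorization p : ℕ) : ℤ) ∣ (E1 : ℤ) - E2 ∨
      ((∏ p ∈ S, p ^ F.factorization p : ℕ) : ℤ) ∣ (E1 : ℤ) + E2 := by
  have h : ((∏ p ∈ S, p ^ F.factorization p : ℕ) : ℤ) ∣ (F : ℤ) :=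
    Int.natCast_dvd_natCast.2 (tri_prod_dvd H.posF S hS)
  exact H.rel.imp h.trans h.trans

/-- `∑_{p ∈ S} v_p log p ≤ log F ≤ L`. -/
theorem Tri.share_le {E1 E2 F N : ℕ} {L : ℝ} (H : Tri E1 E2 F N L) (S : Finset ℕ)
    (hS : S ⊆ F.primeFactors) :
    ∑ p ∈ S, (F.factorization p : ℝ) * Real.log p ≤ L := by
  have h0 : ∀ p ∈ S, 0 < p := fun p hp => (Nat.prime_of_mem_primeFactors (hS hp)).pos
  have h1 : ∑ p ∈ S, (F.factorization p : ℝ) * Real.log p =
      Real.log ((∏ p ∈ S, p ^ F.factorization p : ℕ) : ℝ) := by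
    rw [Nat.cast_prod, Real.log_prod]
    · refine Finset.sum_congr rfl fun p _ => ?_
      rw [Nat.cast_pow, Real.log_pow]
    · intro p hp
      have := h0 p hp
      positivity
  rw [h1]
  refine le_trans (Real.log_le_log ?_ ?_) H.sizeF
  · exact_mod_cast Finset.prod_pos fun p hp => pow_pos (h0 p hp) _
  · exact_mod_cast Nat.le_of_dvd H.posF (tri_prod_dvd H.posF S hS)

/-- `∏_{p ∈ S} p ≤ N`. -/
theorem Tri.prod_le {E1 E2 F N : ℕ} {L : ℝ} (H : Tri E1 E2 F N L) (S : Finset ℕ)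
    (hS : S ⊆ F.primeFactors) : ∏ p ∈ S, p ≤ N := by
  refine le_trans (Nat.le_of_dvd ?_ ?_) H.rad
  · exact Finset.prod_pos fun q hq => (Nat.prime_of_mem_primeFactors hq).pos
  · exact Finset.prod_dvd_prod_of_subset _ _ _ (hS.trans (Nat.primeFactors_mono
      (dvd_mul_left _ _) (Nat.mul_pos (Nat.mul_pos H.pos1 H.pos2) H.posF).ne'))

end Pool.ZB
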